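import Pool.Agent.TH410.BP.Rank
import Pool.Agent.H630R2.LR.M2

set_option autoImplicit false
set_option linter.unusedSectionVars false

/-! A Boolean function of degree `d` with `f 0 = 0` is `0` as soon as `d ^ 3` suitable relevant
coordinates are `0`. -/

namespace Pool.Agent.TH410.BP

open Finset Module

variable {I : Type} [Fintype I] [DecidableEq I]

/-- the indicator of a set -/
def ind (T : Finset I) : I → Bool := fun i => decide (i ∈ T)

theorem moeb (A : Finset I) : ∀ p : (I → Bool) → ℝ, ∑ S ∈ A.powerset, mo p S = p (ind A) := by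
  induction A using Finset.induction_on with
  | empty =>
    intro p
    have h : ind (∅ : Finset I) = fun _ => false := by
      funext i
      simp [ind]
    rw [h]
    simp [mo]
  | insert i A hi ih =>
    intro p
    rw [sum_powerset_insert hi, ih]
    have h1 : ∑ S ∈ A.powerset, mo p (insert i S) = ∑ S ∈ A.powerset, mo (dl p i) S := by
      refine sum_congr rfl fun S hS => ?_
      rw [mem_powerset] at hS
      exact mo_insert p S i fun h => hi (hS h)
    rw [h1, ih]
    have h3 : Function.update (ind A) i true = ind (insert i A) := by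
      funext j
      unfold ind
      rcases eq_or_ne j i with rfl | h
      · simp
      · simp [h]
    have h4 : Function.update (ind A) i false = ind A := by
      funext j
      unfold ind
      rcases eq_or_ne j i with rfl | h
      · simp [hi]
      · simp [h]
    unfold dl
    rw [h3, h4]
    ring

theorem e01 (w : Bool) : e w = 0 ∨ e w = 1 := by
  unfold e
  cases w
  · exact Or.inl rfl
  · exact Or.inr rfl

theorem cert (f : (I → Bool) → Bool) (hf : f (ind ∅) = false) (d : ℕ)
    (hd : ∀ S, mo (fun z => e (f z)) S ≠ 0 → S.card ≤ d) :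
    ∃ C : Finset I, C.card ≤ d ^ 3 ∧ (∀ z, (∀ i ∈ C, z i = false) → f z = false) ∧
      ∀ i ∈ C, ∃ B : Finset I, i ∉ B ∧ f (ind B) = false ∧ f (ind (insert i B)) = true := by
  classical
  obtain ⟨p, hp⟩ : ∃ p : (I → Bool) → ℝ, p = fun z => e (f z) := ⟨_, rfl⟩
  rw [← hp] at hd
  let ms : Finset I → Prop := fun B => f (ind B) = true ∧ ∀ B' ⊂ B, f (ind B') = false
  have hms : ∀ B, ms B → B.card ≤ d := by
    rintro B ⟨h1, h2⟩
    apply hd
    have h3 : mo p B = 1 := by
      unfold mo
      rw [sum_eq_single B]
      · rw [Finset.sdiff_self, card_empty, pow_zero, one_mul, hp]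
        show e (f (ind B)) = 1
        rw [h1]
        rfl
      · intro T hT hTB
        rw [mem_powerset] at hT
        have h4 : f (ind T) = false := h2 T (hT.ssubset_of_ne hTB)
        rw [hp]
        show _ * e (f (ind T)) = 0
        rw [h4]
        simp [e]
      · intro h
        exact absurd (mem_powerset_self B) h
    rw [h3]
    exact one_ne_zero
  let fam : Finset (Finset (Finset I)) := Finset.univ.filter fun 𝓑 =>
    (∀ S ∈ 𝓑, ms S) ∧ ∀ S ∈ 𝓑, ∀ S' ∈ 𝓑, S ≠ S' → Disjoint S S'
  have hne : fam.Nonempty := ⟨∅, by simp [fam]⟩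
  obtain ⟨𝓑, h𝓑, hmax⟩ := Finset.exists_max_image fam Finset.card hne
  simp only [fam, Finset.mem_filter, Finset.mem_univ, true_and] at h𝓑 hmax
  have hcard : 𝓑.card ≤ d ^ 2 := by
    refine Pool.Agent.H630R2.LR.MARKOV.block_bound (k := d) (mo p)
      (fun j : Fin 𝓑.card => (𝓑.equivFin.symm j : Finset I)) ?_ ?_ ?_ ?_
    · intro i j hij
      apply h𝓑.2 _ (𝓑.equivFin.symm i).2 _ (𝓑.equivFin.symm j).2
      intro h
      exact hij (𝓑.equivFin.symm.injective (Subtype.ext h))
    · intro S hS
      by_contra h
      exact absurd (hd S h) (by omega)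
    · intro Y
      rw [moeb, hp]
      exact e01 _
    · intro j
      rw [moeb]
      have h1 := (h𝓑.1 _ (𝓑.equivFin.symm j).2).1
      have h2 : mo p ∅ = p (ind ∅) := by
        rw [← moeb ∅ p]
        simp
      rw [h2, hp]
      show e (f (ind _)) ≠ e (f (ind ∅))
      rw [h1, hf]
      simp [e]
  refine ⟨𝓑.biUnion id, ?_, ?_, ?_⟩
  · calc (𝓑.biUnion id).card ≤ ∑ S ∈ 𝓑, (id S).card := Finset.card_biUnion_le
      _ ≤ ∑ S ∈ 𝓑, d := Finset.sum_le_sum fun S hS => hms S (h𝓑.1 S hS)
      _ = 𝓑.card * d := by rw [Finset.sum_const, smul_eq_mul]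
      _ ≤ d ^ 2 * d := Nat.mul_le_mul_right _ hcard
      _ = d ^ 3 := by ring
  · intro z hz
    by_contra hfz
    rw [Bool.not_eq_false] at hfz
    have hzi : z = ind (univ.filter fun i => z i = true) := by
      funext i
      unfold ind
      simp
    obtain ⟨B, hBA, hB⟩ : ∃ B ⊆ univ.filter (fun i => z i = true), ms B := by
      have hex : ∃ n, ∃ B ⊆ univ.filter (fun i => z i = true), f (ind B) = true ∧ B.card = n := by
        refine ⟨_, _, Subset.refl _, ?_, rfl⟩
        rw [← hzi]
        exact hfz
      obtain ⟨B, hB1, hB2, hB3⟩ := Nat.find_spec hex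
      refine ⟨B, hB1, hB2, fun B' hB' => ?_⟩
      by_contra h
      rw [Bool.not_eq_false] at h
      have h2 := Nat.find_min' hex ⟨B', hB'.1.trans hB1, h, rfl⟩
      have h3 := card_lt_card hB'
      omega
    have hBn : B.Nonempty := by
      rw [nonempty_iff_ne_empty]
      rintro rfl
      rw [hB.1] at hf
      exact absurd hf (by decide)
    have hdis : ∀ T ∈ 𝓑, Disjoint B T := by
      intro T hT
      rw [disjoint_left]
      intro i hi hiT
      have h1 := hz i (mem_biUnion.2 ⟨T, hT, hiT⟩)
      have h2 := (mem_filter.1 (hBA hi)).2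
      rw [h1] at h2
      exact absurd h2 (by decide)
    have hSn : B ∉ 𝓑 := by
      intro h
      have := hdis B h
      rw [disjoint_self] at this
      exact hBn.ne_empty this
    have := hmax (insert B 𝓑) ?_
    · rw [Finset.card_insert_of_notMem hSn] at this
      omega
    · constructor
      · intro T hT
        rcases Finset.mem_insert.1 hT with rfl | hT
        · exact hB
        · exact h𝓑.1 T hT
      · intro T hT T' hT' hne
        rcases Finset.mem_insert.1 hT with h1 | h1
        · rcases Finset.mem_insert.1 hT' with h2 | h2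
          · exact absurd (h1.trans h2.symm) hne
          · rw [h1]; exact hdis _ h2
        · rcases Finset.mem_insert.1 hT' with h2 | h2
          · rw [h2]; exact (hdis _ h1).symm
          · exact h𝓑.2 _ h1 _ h2 hne
  · intro i hi
    rw [mem_biUnion] at hi
    obtain ⟨B, hB, hiB⟩ := hi
    rw [id] at hiB
    refine ⟨B.erase i, notMem_erase i B, (h𝓑.1 B hB).2 _ (erase_ssubset hiB), ?_⟩
    rw [insert_erase hiB]
    exact (h𝓑.1 B hB).1

end Pool.Agent.TH410.BP
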