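import Pool.Agent.TH410.BP.Cert

set_option autoImplicit false
set_option linter.unusedSectionVars false

/-! Boolean products of graphs. -/

namespace Pool.Agent.TH410.BP

open Finset Module

theorem good_of_rows {A B : Type} (g : A → B → Bool) (a : Fin 3 → A)
    (h : Function.Injective fun j => g (a j)) : Good g := by
  have h01 : g (a 0) ≠ g (a 1) := fun h' => absurd (h h') (by decide)
  have h02 : g (a 0) ≠ g (a 2) := fun h' => absurd (h h') (by decide)
  have h12 : g (a 1) ≠ g (a 2) := fun h' => absurd (h h') (by decide)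
  obtain ⟨b0, hb0⟩ := Function.ne_iff.1 h01
  obtain ⟨b1, hb1, hb2⟩ : ∃ b1, (g (a 0) b0, g (a 0) b1) ≠ (g (a 2) b0, g (a 2) b1) ∧
      (g (a 1) b0, g (a 1) b1) ≠ (g (a 2) b0, g (a 2) b1) := by
    by_cases hc : g (a 2) b0 = g (a 0) b0
    · obtain ⟨b1, hb1⟩ := Function.ne_iff.1 h02
      refine ⟨b1, fun h' => hb1 (Prod.mk.inj h').2, fun h' => hb0 ?_⟩
      rw [(Prod.mk.inj h').1, hc]
    · obtain ⟨b1, hb1⟩ := Function.ne_iff.1 h12
      exact ⟨b1, fun h' => hc (Prod.mk.inj h').1.symm, fun h' => hb1 (Prod.mk.inj h').2⟩
  refine ⟨a, ![b0, b1], ?_⟩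
  have k0 : ∀ j, (fun k => g (a j) (![b0, b1] k)) 0 = g (a j) b0 := fun j => rfl
  have k1 : ∀ j, (fun k => g (a j) (![b0, b1] k)) 1 = g (a j) b1 := fun j => rfl
  intro j j' hj
  have hj0 : g (a j) b0 = g (a j') b0 := by
    rw [← k0 j, ← k0 j']
    exact congrFun hj 0
  have hj1 : g (a j) b1 = g (a j') b1 := by
    rw [← k1 j, ← k1 j']
    exact congrFun hj 1
  have hb1' : ¬ (g (a 0) b0 = g (a 2) b0 ∧ g (a 0) b1 = g (a 2) b1) := fun h' =>
    hb1 (Prod.ext h'.1 h'.2)
  have hb2' : ¬ (g (a 1) b0 = g (a 2) b0 ∧ g (a 1) b1 = g (a 2) b1) := fun h' =>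
    hb2 (Prod.ext h'.1 h'.2)
  fin_cases j <;> fin_cases j' <;> simp only [Fin.zero_eta, Fin.mk_one, Fin.reduceFinMk] at hj0 hj1 ⊢
  · exact absurd hj0 hb0
  · exact absurd ⟨hj0, hj1⟩ hb1'
  · exact absurd hj0.symm hb0
  · exact absurd ⟨hj0, hj1⟩ hb2'
  · exact absurd ⟨hj0.symm, hj1.symm⟩ hb1'
  · exact absurd ⟨hj0.symm, hj1.symm⟩ hb2'

variable {I : Type} [Fintype I] [DecidableEq I] {U : I → Type} [∀ i, Fintype (U i)]

open Classical in
/-- The Boolean product of the graphs `G i`: adjacency of `x` and `y` is the value of `f` at the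
vector of the adjacencies of `x i` and `y i` in `G i`. -/
noncomputable def prodGraph (f : (I → Bool) → Bool) (hf : f (fun _ => false) = false)
    (G : ∀ i, SimpleGraph (U i)) : SimpleGraph (∀ i, U i) where
  Adj x y := f (fun i => decide ((G i).Adj (x i) (y i))) = true
  symm := ⟨fun x y h => by
    have : (fun i => decide ((G i).Adj (y i) (x i))) = fun i => decide ((G i).Adj (x i) (y i)) := by
      funext i
      rw [decide_eq_decide]
      exact (G i).adj_comm _ _
    rw [this]
    exact h⟩
  loopless := ⟨fun x h => by
    have : (fun i => decide ((G i).Adj (x i) (x i))) = fun _ => false := by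
      funext i
      rw [decide_eq_false_iff_not]
      exact (G i).loopless.irrefl _
    rw [this, hf] at h
    exact absurd h (by decide)⟩

/-- three vertices with pairwise different neighbourhoods -/
def Three {W : Type} (G : SimpleGraph W) : Prop :=
  ∃ a : Fin 3 → W, Function.Injective fun j => G.neighborSet (a j)

open Classical in
theorem Three.good {W : Type} {G : SimpleGraph W} (h : Three G) :
    Good fun a b : W => decide (G.Adj a b) := by
  obtain ⟨a, ha⟩ := h
  refine good_of_rows _ a fun j j' hj => ha ?_
  ext w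
  have := congrFun hj w
  rw [decide_eq_decide] at this
  exact this

theorem Three.edge {W : Type} {G : SimpleGraph W} (h : Three G) : ∃ a b, G.Adj a b := by
  by_contra hc
  push Not at hc
  obtain ⟨a, ha⟩ := h
  have h1 : (fun j => G.neighborSet (a j)) 0 = (fun j => G.neighborSet (a j)) 1 := by
    ext w
    exact ⟨fun h => absurd h (hc _ _), fun h => absurd h (hc _ _)⟩
  exact absurd (ha h1) (by decide)

open Classical in
theorem finrank_eq (f : (I → Bool) → Bool) (hf : f (fun _ => false) = false)
    (G : ∀ i, SimpleGraph (U i)) :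
    finrank ℝ (V (fun i (a b : U i) => decide ((G i).Adj a b)) (fun z => e (f z))) =
      ((prodGraph f hf G).adjMatrix ℝ).rank := by
  rw [Matrix.rank_eq_finrank_span_cols]
  have h : Set.range (col (fun i (a b : U i) => decide ((G i).Adj a b)) (fun z => e (f z))) =
      Set.range ((prodGraph f hf G).adjMatrix ℝ).col := by
    congr 1
    funext y x
    show e (f (app _ x y)) = (prodGraph f hf G).adjMatrix ℝ x y
    rw [SimpleGraph.adjMatrix_apply]
    unfold e
    exact if_congr Iff.rfl rfl rfl
  unfold V
  rw [h]

open Classical in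
theorem main (f : (I → Bool) → Bool) (hf : f (fun _ => false) = false)
    (G : ∀ i, SimpleGraph (U i)) (hG : ∀ i, Three (G i)) :
    ∃ C : Finset I, C.card ≤ Nat.log 2 ((prodGraph f hf G).adjMatrix ℝ).rank ^ 3 ∧
      (∀ i ∈ C, ((G i).adjMatrix ℝ).rank ≤ ((prodGraph f hf G).adjMatrix ℝ).rank) ∧
      (prodGraph f hf G).Colorable (∏ i ∈ C, (G i).chromaticNumber.toNat) := by
  have hi0 : ind (∅ : Finset I) = fun _ => false := by
    funext i
    simp [ind]
  choose u₁ w₁ huw using fun i => (hG i).edge
  obtain ⟨C, hC1, hC2, hC3⟩ := cert f (by rw [hi0]; exact hf)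
    (Nat.log 2 ((prodGraph f hf G).adjMatrix ℝ).rank) (by
      intro S hS
      have h1 := rank_ge (fun i (a b : U i) => decide ((G i).Adj a b)) (fun i => (hG i).good)
        (fun i => ⟨u₁ i, u₁ i, by simp⟩) S _ hS
      rw [finrank_eq f hf G] at h1
      exact Nat.le_log_of_pow_le (by norm_num) h1)
  refine ⟨C, hC1, fun i hi => ?_, ?_⟩
  · obtain ⟨B, hiB, hB0, hB1⟩ := hC3 i hi
    have hsub : (G i).adjMatrix ℝ = ((prodGraph f hf G).adjMatrix ℝ).submatrix
        (fun a => Function.update (fun j => if j ∈ B then u₁ j else u₁ j) i a)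
        (fun b => Function.update (fun j => if j ∈ B then w₁ j else u₁ j) i b) := by
      ext a b
      rw [Matrix.submatrix_apply, SimpleGraph.adjMatrix_apply, SimpleGraph.adjMatrix_apply]
      have h1 : (prodGraph f hf G).Adj
          (Function.update (fun j => if j ∈ B then u₁ j else u₁ j) i a)
          (Function.update (fun j => if j ∈ B then w₁ j else u₁ j) i b) ↔ (G i).Adj a b := by
        show f _ = true ↔ _
        by_cases hab : (G i).Adj a b
        · have h2 : (fun j => decide ((G j).Adj
              (Function.update (fun j => if j ∈ B then u₁ j else u₁ j) i a j)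
              (Function.update (fun j => if j ∈ B then w₁ j else u₁ j) i b j))) =
              ind (insert i B) := by
            funext j
            unfold ind
            rcases eq_or_ne j i with rfl | hj
            · simp [hab]
            · by_cases hjB : j ∈ B
              · simp [hj, hjB, huw]
              · simp [hj, hjB]
          rw [h2, hB1]
          simp [hab]
        · have h2 : (fun j => decide ((G j).Adj
              (Function.update (fun j => if j ∈ B then u₁ j else u₁ j) i a j)
              (Function.update (fun j => if j ∈ B then w₁ j else u₁ j) i b j))) = ind B := by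
            funext j
            unfold ind
            rcases eq_or_ne j i with rfl | hj
            · simp [hab, hiB]
            · by_cases hjB : j ∈ B
              · simp [hj, hjB, huw]
              · simp [hj, hjB]
          rw [h2, hB0]
          simp [hab]
      simp only [h1]
    rw [hsub]
    exact Matrix.rank_submatrix_le _ _ _
  · have hcol : ∀ i, Nonempty ((G i).Coloring (Fin (G i).chromaticNumber.toNat)) := fun i =>
      (G i).colorable_chromaticNumber_of_fintype
    let c : ∀ i, (G i).Coloring (Fin (G i).chromaticNumber.toNat) := fun i => (hcol i).some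
    let K : Type := ∀ i : C, Fin (G i).chromaticNumber.toNat
    have hK : Fintype.card K = ∏ i ∈ C, (G i).chromaticNumber.toNat := by
      rw [Fintype.card_pi]
      simp only [Fintype.card_fin]
      exact Finset.prod_coe_sort C fun i => (G i).chromaticNumber.toNat
    rw [← hK]
    refine SimpleGraph.Coloring.colorable (α := K) (SimpleGraph.Coloring.mk
      (fun x (i : C) => (c i (x i) : Fin (G i).chromaticNumber.toNat)) ?_)
    rintro x y hxy hcon
    have h1 : f (fun i => decide ((G i).Adj (x i) (y i))) = false := by
      apply hC2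
      intro i hi
      rw [decide_eq_false_iff_not]
      intro had
      exact (c i).valid had (congrFun hcon ⟨i, hi⟩)
    have h2 : f (fun i => decide ((G i).Adj (x i) (y i))) = true := hxy
    rw [h1] at h2
    exact absurd h2 (by decide)

end Pool.Agent.TH410.BP
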