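import Pool.Agent.TH410.BP.Graph

set_option autoImplicit false
set_option linter.unusedSectionVars false

/-! The final bounds for Boolean products. -/

namespace Pool.Agent.TH410.BP

open Finset Module

theorem log_le' (n : ℕ) : (Nat.log 2 n : ℝ) ≤ Real.logb 2 n := by
  rcases Nat.eq_zero_or_pos n with rfl | h
  · simp
  · rw [Real.le_logb_iff_rpow_le (by norm_num) (by positivity), Real.rpow_natCast]
    exact_mod_cast Nat.pow_log_le_self 2 h.ne'

theorem logb_mono (a b : ℕ) (h : a ≤ b) : Real.logb 2 a ≤ Real.logb 2 b := by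
  rcases Nat.eq_zero_or_pos a with rfl | ha
  · simp only [Nat.cast_zero, Real.logb_zero]
    rcases Nat.eq_zero_or_pos b with rfl | hb
    · simp
    · exact Real.logb_nonneg (by norm_num) (by exact_mod_cast hb)
  · exact Real.logb_le_logb_of_le (by norm_num) (by exact_mod_cast ha) (by exact_mod_cast h)

theorem logb_nn (a : ℕ) : 0 ≤ Real.logb 2 (a : ℝ) := by
  have := logb_mono 0 a (Nat.zero_le a)
  simpa using this

variable {I : Type} [Fintype I] [DecidableEq I] {U : I → Type} [∀ i, Fintype (U i)]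

open Classical in
theorem bound (f : (I → Bool) → Bool) (hf : f (fun _ => false) = false)
    (G : ∀ i, SimpleGraph (U i)) (hG : ∀ i, Three (G i)) (L : ℝ) (hL : 0 ≤ L)
    (h : ∀ i, ((G i).adjMatrix ℝ).rank ≤ ((prodGraph f hf G).adjMatrix ℝ).rank →
      Real.logb 2 ((G i).chromaticNumber.toNat : ℝ) ≤ L) :
    Real.logb 2 ((prodGraph f hf G).chromaticNumber.toNat : ℝ) ≤
      Real.logb 2 (((prodGraph f hf G).adjMatrix ℝ).rank : ℝ) ^ 3 * L := by
  obtain ⟨C, h1, h2, h3⟩ := main f hf G hG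
  have h4 : (prodGraph f hf G).chromaticNumber.toNat ≤ ∏ i ∈ C, (G i).chromaticNumber.toNat := by
    have h5 := h3.chromaticNumber_le
    have h6 := ENat.toNat_le_toNat h5 (ENat.natCast_ne_top _)
    simpa using h6
  have hpos : ∀ i, 0 < (G i).chromaticNumber.toNat := by
    intro i
    obtain ⟨a, b, hab⟩ := (hG i).edge
    have : Nonempty (U i) := ⟨a⟩
    rw [Nat.pos_iff_ne_zero]
    intro h0
    obtain ⟨c⟩ := (G i).colorable_chromaticNumber_of_fintype
    rw [h0] at c
    exact (c a).elim0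
  calc Real.logb 2 ((prodGraph f hf G).chromaticNumber.toNat : ℝ)
      ≤ Real.logb 2 ((∏ i ∈ C, (G i).chromaticNumber.toNat : ℕ) : ℝ) := logb_mono _ _ h4
    _ = ∑ i ∈ C, Real.logb 2 ((G i).chromaticNumber.toNat : ℝ) := by
        rw [Nat.cast_prod, Real.logb, Real.log_prod, sum_div]
        · rfl
        · intro i _
          exact_mod_cast (hpos i).ne'
    _ ≤ ∑ i ∈ C, L := sum_le_sum fun i hi => h i (h2 i hi)
    _ = C.card * L := by rw [sum_const, nsmul_eq_mul]
    _ ≤ Real.logb 2 (((prodGraph f hf G).adjMatrix ℝ).rank : ℝ) ^ 3 * L := by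
        refine mul_le_mul_of_nonneg_right ?_ hL
        calc (C.card : ℝ) ≤ ((Nat.log 2 ((prodGraph f hf G).adjMatrix ℝ).rank ^ 3 : ℕ) : ℝ) := by
              exact_mod_cast h1
          _ = (Nat.log 2 ((prodGraph f hf G).adjMatrix ℝ).rank : ℝ) ^ 3 := by push_cast; rfl
          _ ≤ _ := pow_le_pow_left₀ (by positivity) (log_le' _) 3

open Classical in
theorem closure_bound (f : (I → Bool) → Bool) (hf : f (fun _ => false) = false)
    (G : ∀ i, SimpleGraph (U i)) (hG : ∀ i, Three (G i)) (K c : ℝ) (hK : 0 ≤ K) (hc : 0 ≤ c)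
    (h : ∀ i, Real.logb 2 ((G i).chromaticNumber.toNat : ℝ) ≤
      K * Real.logb 2 (((G i).adjMatrix ℝ).rank : ℝ) ^ c) :
    Real.logb 2 ((prodGraph f hf G).chromaticNumber.toNat : ℝ) ≤
      K * Real.logb 2 (((prodGraph f hf G).adjMatrix ℝ).rank : ℝ) ^ (c + 3) := by
  have h1 := bound f hf G hG
    (K * Real.logb 2 (((prodGraph f hf G).adjMatrix ℝ).rank : ℝ) ^ c)
    (mul_nonneg hK (Real.rpow_nonneg (logb_nn _) _)) (fun i hi => (h i).trans
      (mul_le_mul_of_nonneg_left (Real.rpow_le_rpow (logb_nn _) (logb_mono _ _ hi) hc) hK))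
  refine h1.trans (le_of_eq ?_)
  rw [Real.rpow_add_of_nonneg (logb_nn _) hc (by norm_num : (0 : ℝ) ≤ 3)]
  have : Real.logb 2 (((prodGraph f hf G).adjMatrix ℝ).rank : ℝ) ^ (3 : ℝ) =
      Real.logb 2 (((prodGraph f hf G).adjMatrix ℝ).rank : ℝ) ^ (3 : ℕ) := by
    rw [← Real.rpow_natCast]
    norm_num
  rw [this]
  ring

theorem three_top {q : ℕ} (hq : 3 ≤ q) : Three (⊤ : SimpleGraph (Fin q)) := by
  refine ⟨fun j => ⟨j.1, by omega⟩, fun j j' h => ?_⟩
  by_contra hne
  have h1 : (⟨j'.1, by omega⟩ : Fin q) ∈ (⊤ : SimpleGraph (Fin q)).neighborSet ⟨j.1, by omega⟩ := by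
    rw [SimpleGraph.mem_neighborSet, SimpleGraph.top_adj]
    intro h2
    have h3 := congrArg Fin.val h2
    exact hne (Fin.ext h3)
  simp only at h
  rw [h] at h1
  exact (⊤ : SimpleGraph (Fin q)).loopless.irrefl _ h1

theorem rank_top {q : ℕ} (hq : 3 ≤ q) [DecidableRel (⊤ : SimpleGraph (Fin q)).Adj] :
    q ≤ ((⊤ : SimpleGraph (Fin q)).adjMatrix ℝ).rank := by
  have hq' : (q : ℝ) - 1 ≠ 0 := by
    have : (3 : ℝ) ≤ q := by exact_mod_cast hq
    linarith
  have h1 : ((⊤ : SimpleGraph (Fin q)).adjMatrix ℝ) *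
      (Matrix.of fun i j : Fin q => (1 : ℝ) / (q - 1) - if i = j then 1 else 0) = 1 := by
    ext i j
    rw [Matrix.mul_apply]
    simp only [SimpleGraph.adjMatrix_apply, SimpleGraph.top_adj, Matrix.of_apply, ite_mul, one_mul,
      zero_mul]
    have h2 : ∀ k : Fin q, (if i ≠ k then (1 : ℝ) / (q - 1) - (if k = j then 1 else 0) else 0) =
        ((1 : ℝ) / (q - 1) - if k = j then 1 else 0) -
          (if k = i then (1 : ℝ) / (q - 1) - (if k = j then 1 else 0) else 0) := by
      intro k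
      rcases eq_or_ne i k with h | h
      · rw [if_neg (not_not.2 h), if_pos h.symm, sub_self]
      · rw [if_pos h, if_neg (Ne.symm h), sub_zero]
    rw [Finset.sum_congr rfl fun k _ => h2 k, Finset.sum_sub_distrib, Finset.sum_sub_distrib]
    simp only [Finset.sum_const, Finset.card_univ, Fintype.card_fin, nsmul_eq_mul,
      Finset.sum_ite_eq', Finset.mem_univ, if_true]
    rw [Matrix.one_apply]
    split_ifs with h
    · field_simp
      ring
    · field_simp
      ring
  have h3 := Matrix.rank_mul_le_left ((⊤ : SimpleGraph (Fin q)).adjMatrix ℝ)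
    (Matrix.of fun i j : Fin q => (1 : ℝ) / (q - 1) - if i = j then 1 else 0)
  rw [h1, Matrix.rank_one, Fintype.card_fin] at h3
  exact h3

open Classical in
/-- the graph on `[q]^I` in which adjacency is a function of the set of coordinates of difference -/
theorem hamming {q : ℕ} (hq : 3 ≤ q) (f : (I → Bool) → Bool) (hf : f (fun _ => false) = false) :
    Real.logb 2 ((prodGraph f hf
      (fun _ : I => (⊤ : SimpleGraph (Fin q)))).chromaticNumber.toNat : ℝ) ≤
      Real.logb 2 (((prodGraph f hf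
        (fun _ : I => (⊤ : SimpleGraph (Fin q)))).adjMatrix ℝ).rank : ℝ) ^ 4 := by
  have h1 := closure_bound f hf (fun _ : I => (⊤ : SimpleGraph (Fin q))) (fun _ => three_top hq)
    1 1 zero_le_one zero_le_one (fun _ => by
      rw [one_mul, Real.rpow_one]
      apply logb_mono
      have h2 : (⊤ : SimpleGraph (Fin q)).chromaticNumber ≤ (q : ℕ∞) := by
        rw [SimpleGraph.chromaticNumber_top, Fintype.card_fin]
      have h3 := ENat.toNat_le_toNat h2 (ENat.natCast_ne_top _)
      rw [ENat.toNat_natCast] at h3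
      exact h3.trans (@rank_top q hq (fun a b => propDecidable _)))
  rw [one_mul] at h1
  refine h1.trans (le_of_eq ?_)
  rw [← Real.rpow_natCast]
  norm_num

end Pool.Agent.TH410.BP
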