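import Mathlib

set_option autoImplicit false
set_option linter.unusedSectionVars false

/-! The rank of a composed matrix `p(g_1(x_1, y_1), ..., g_n(x_n, y_n))` is at least `2 ^ deg p` if
every `g_i` has three rows which are pairwise different on two columns. -/

namespace Pool.Agent.TH410.BP

open Finset Module

variable {I : Type} [Fintype I] [DecidableEq I] {X Y : I → Type} [∀ i, Fintype (X i)]
  [∀ i, Fintype (Y i)]

/-- the inner values -/
def app (g : ∀ i, X i → Y i → Bool) (x : ∀ i, X i) (y : ∀ i, Y i) : I → Bool :=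
  fun i => g i (x i) (y i)

theorem app_update (g : ∀ i, X i → Y i → Bool) (x : ∀ i, X i) (y : ∀ i, Y i) (i : I) (a : X i)
    (b : Y i) : app g (Function.update x i a) (Function.update y i b) =
      Function.update (app g x y) i (g i a b) := by
  funext j
  unfold app
  rcases eq_or_ne j i with rfl | h
  · simp
  · simp [h]

/-- the columns of the matrix of `p` -/
def col (g : ∀ i, X i → Y i → Bool) (p : (I → Bool) → ℝ) (y : ∀ i, Y i) : (∀ i, X i) → ℝ :=
  fun x => p (app g x y)

/-- the column space -/
noncomputable def V (g : ∀ i, X i → Y i → Bool) (p : (I → Bool) → ℝ) :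
    Submodule ℝ ((∀ i, X i) → ℝ) := Submodule.span ℝ (Set.range (col g p))

/-- the difference in coordinate `i` -/
def dl (p : (I → Bool) → ℝ) (i : I) : (I → Bool) → ℝ :=
  fun z => p (Function.update z i true) - p (Function.update z i false)

/-- the number of a bit -/
def e (w : Bool) : ℝ := if w then 1 else 0

theorem diff_eq (p : (I → Bool) → ℝ) (i : I) (z : I → Bool) (w w' : Bool) :
    p (Function.update z i w) - p (Function.update z i w') = (e w - e w') * dl p i z := by
  unfold dl e
  cases w <;> cases w' <;> simp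

theorem det_ne (m : Fin 3 → Fin 2 → Bool) (h : Function.Injective m) :
    (e (m 0 0) - e (m 1 0)) * (e (m 0 1) - e (m 2 1)) -
      (e (m 0 1) - e (m 1 1)) * (e (m 0 0) - e (m 2 0)) ≠ 0 := by
  have h01 : ¬ (m 0 0 = m 1 0 ∧ m 0 1 = m 1 1) := by
    rintro ⟨h1, h2⟩
    have h3 : m 0 = m 1 := by
      funext k
      fin_cases k
      · exact h1
      · exact h2
    exact absurd (h h3) (by decide)
  have h02 : ¬ (m 0 0 = m 2 0 ∧ m 0 1 = m 2 1) := by
    rintro ⟨h1, h2⟩
    have h3 : m 0 = m 2 := by
      funext k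
      fin_cases k
      · exact h1
      · exact h2
    exact absurd (h h3) (by decide)
  have h12 : ¬ (m 1 0 = m 2 0 ∧ m 1 1 = m 2 1) := by
    rintro ⟨h1, h2⟩
    have h3 : m 1 = m 2 := by
      funext k
      fin_cases k
      · exact h1
      · exact h2
    exact absurd (h h3) (by decide)
  revert h01 h02 h12
  generalize m 0 0 = a
  generalize m 0 1 = a'
  generalize m 1 0 = b
  generalize m 1 1 = b'
  generalize m 2 0 = c
  generalize m 2 1 = c'
  unfold e
  cases a <;> cases a' <;> cases b <;> cases b' <;> cases c <;> cases c' <;> simp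

theorem step (g : ∀ i, X i → Y i → Bool) (p : (I → Bool) → ℝ) (i : I) (a : Fin 3 → X i)
    (b : Fin 2 → Y i) (h : Function.Injective fun j k => g i (a j) (b k)) :
    2 * finrank ℝ (V g (dl p i)) ≤ finrank ℝ (V g p) := by
  have hdet := det_ne (fun j k => g i (a j) (b k)) h
  set α : Fin 2 → ℝ := fun k => e (g i (a 0) (b k)) - e (g i (a 1) (b k)) with hα
  set β : Fin 2 → ℝ := fun k => e (g i (a 0) (b k)) - e (g i (a 2) (b k)) with hβ
  have hdet' : α 0 * β 1 - α 1 * β 0 ≠ 0 := hdet
  let W := (∀ i, X i) → ℝ
  let Φ : W →ₗ[ℝ] W × W :=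
    ((LinearMap.funLeft ℝ ℝ (fun x : ∀ i, X i => Function.update x i (a 0))) -
      (LinearMap.funLeft ℝ ℝ (fun x : ∀ i, X i => Function.update x i (a 1)))).prod
    ((LinearMap.funLeft ℝ ℝ (fun x : ∀ i, X i => Function.update x i (a 0))) -
      (LinearMap.funLeft ℝ ℝ (fun x : ∀ i, X i => Function.update x i (a 2))))
  let L : Fin 2 → (W →ₗ[ℝ] W × W) := fun k =>
    (α k • LinearMap.id).prod (β k • LinearMap.id)
  have hΦ : ∀ (k : Fin 2) (y : ∀ i, Y i),
      Φ (col g p (Function.update y i (b k))) = L k (col g (dl p i) y) := by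
    intro k y
    refine Prod.ext ?_ ?_
    · funext x
      show p (app g (Function.update x i (a 0)) (Function.update y i (b k))) -
        p (app g (Function.update x i (a 1)) (Function.update y i (b k))) = α k * dl p i (app g x y)
      rw [app_update, app_update, diff_eq]
    · funext x
      show p (app g (Function.update x i (a 0)) (Function.update y i (b k))) -
        p (app g (Function.update x i (a 2)) (Function.update y i (b k))) = β k * dl p i (app g x y)
      rw [app_update, app_update, diff_eq]
  have hL : ∀ k, Submodule.map (L k) (V g (dl p i)) ≤ Submodule.map Φ (V g p) := by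
    intro k
    unfold V
    rw [Submodule.map_span_le]
    rintro _ ⟨y, rfl⟩
    rw [← hΦ k y]
    exact Submodule.mem_map_of_mem (Submodule.subset_span ⟨_, rfl⟩)
  let Ψ : (V g (dl p i) × V g (dl p i)) →ₗ[ℝ] W × W :=
    ((L 0).comp (V g (dl p i)).subtype).coprod ((L 1).comp (V g (dl p i)).subtype)
  have hΨ : ∀ w, Ψ w = L 0 w.1 + L 1 w.2 := fun w => rfl
  have hinj : Function.Injective Ψ := by
    rw [← LinearMap.ker_eq_bot, LinearMap.ker_eq_bot']
    rintro ⟨⟨w1, hw1⟩, ⟨w2, hw2⟩⟩ hw
    rw [hΨ] at hw
    have h1 : α 0 • w1 + α 1 • w2 = 0 := congrArg Prod.fst hw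
    have h2 : β 0 • w1 + β 1 • w2 = 0 := congrArg Prod.snd hw
    have h3 : (α 0 * β 1 - α 1 * β 0) • w1 = 0 := by
      have : (α 0 * β 1 - α 1 * β 0) • w1 =
          β 1 • (α 0 • w1 + α 1 • w2) - α 1 • (β 0 • w1 + β 1 • w2) := by
        module
      rw [this, h1, h2, smul_zero, smul_zero, sub_zero]
    have h4 : (α 0 * β 1 - α 1 * β 0) • w2 = 0 := by
      have : (α 0 * β 1 - α 1 * β 0) • w2 =
          α 0 • (β 0 • w1 + β 1 • w2) - β 0 • (α 0 • w1 + α 1 • w2) := by
        module
      rw [this, h1, h2, smul_zero, smul_zero, sub_zero]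
    have h5 := (smul_eq_zero.1 h3).resolve_left hdet'
    have h6 := (smul_eq_zero.1 h4).resolve_left hdet'
    subst h5 h6
    rfl
  have hr : LinearMap.range Ψ ≤ Submodule.map Φ (V g p) := by
    rintro _ ⟨w, rfl⟩
    rw [hΨ]
    exact Submodule.add_mem _ (hL 0 (Submodule.mem_map_of_mem w.1.2))
      (hL 1 (Submodule.mem_map_of_mem w.2.2))
  calc 2 * finrank ℝ (V g (dl p i)) = finrank ℝ (V g (dl p i) × V g (dl p i)) := by
        rw [Module.finrank_prod, two_mul]
    _ = finrank ℝ (LinearMap.range Ψ) := (LinearMap.finrank_range_of_inj hinj).symm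
    _ ≤ finrank ℝ (Submodule.map Φ (V g p)) := Submodule.finrank_mono hr
    _ ≤ finrank ℝ (V g p) := Submodule.finrank_map_le _ _

/-- The rows of `g` in the sense needed. -/
def Good {A B : Type} (g : A → B → Bool) : Prop :=
  ∃ (a : Fin 3 → A) (b : Fin 2 → B), Function.Injective fun j k => g (a j) (b k)

/-- the mixed difference over `S` from the zero point -/
def mo (p : (I → Bool) → ℝ) (S : Finset I) : ℝ :=
  ∑ T ∈ S.powerset, (-1 : ℝ) ^ (S \ T).card * p (fun i => decide (i ∈ T))

theorem mo_insert (p : (I → Bool) → ℝ) (S : Finset I) (i : I) (hi : i ∉ S) :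
    mo p (insert i S) = mo (dl p i) S := by
  unfold mo
  rw [sum_powerset_insert hi, ← sum_add_distrib]
  refine sum_congr rfl fun T hT => ?_
  rw [mem_powerset] at hT
  have hiT : i ∉ T := fun h => hi (hT h)
  have h1 : (insert i S \ T).card = (S \ T).card + 1 := by
    rw [insert_sdiff_of_notMem _ hiT, card_insert_of_notMem]
    exact fun h => hi (mem_sdiff.1 h).1
  have h2 : insert i S \ insert i T = S \ T := by
    ext j
    simp only [mem_sdiff, mem_insert, not_or]
    constructor
    · rintro ⟨h | h, h', h''⟩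
      · exact absurd h h'
      · exact ⟨h, h''⟩
    · rintro ⟨h, h'⟩
      exact ⟨Or.inr h, fun h'' => hi (h'' ▸ h), h'⟩
  have h3 : Function.update (fun j => decide (j ∈ T)) i true = fun j => decide (j ∈ insert i T) := by
    funext j
    rcases eq_or_ne j i with rfl | h
    · simp
    · simp [h]
  have h4 : Function.update (fun j => decide (j ∈ T)) i false = fun j => decide (j ∈ T) := by
    funext j
    rcases eq_or_ne j i with rfl | h
    · simp [hiT]
    · simp [h]
  rw [h1, h2]
  unfold dl
  rw [h3, h4]
  ring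

theorem rank_ge (g : ∀ i, X i → Y i → Bool) (hg : ∀ i, Good (g i)) (h0 : ∀ i, ∃ a b, g i a b = false)
    (S : Finset I) : ∀ p : (I → Bool) → ℝ, mo p S ≠ 0 → 2 ^ S.card ≤ finrank ℝ (V g p) := by
  induction S using Finset.induction_on with
  | empty =>
    intro p hp
    have h1 : p (fun _ => false) ≠ 0 := by
      unfold mo at hp
      simpa using hp
    choose x y hxy using h0
    have h2 : col g p y x ≠ 0 := by
      unfold col
      have : app g x y = fun _ => false := by
        funext i
        exact hxy i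
      rw [this]
      exact h1
    rw [card_empty, pow_zero, Nat.one_le_iff_ne_zero]
    intro h3
    rw [Submodule.finrank_eq_zero] at h3
    apply h2
    have h4 : col g p y ∈ V g p := Submodule.subset_span ⟨y, rfl⟩
    rw [h3, Submodule.mem_bot] at h4
    rw [h4]
    rfl
  | insert i S hi ih =>
    intro p hp
    rw [mo_insert p S i hi] at hp
    obtain ⟨a, b, hab⟩ := hg i
    have h1 := step g p i a b hab
    have h2 := ih _ hp
    rw [card_insert_of_notMem hi, pow_succ]
    omega

end Pool.Agent.TH410.BP
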